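import Pool.Agent.Helper91.KZ.StS

/-!
# MP_1d885e_al: module CS2
-/

namespace Pool.Agent.Helper46.KZ

open Polynomial TensorProduct Pool.Agent.Helper91.KZ

universe u

noncomputable section

/-- the centre of the coefficient ring of a central matrix algebra -/
theorem cs2_cen {E K D : Type u} [Field E] [Ring K] [Algebra E K] [Ring D] [Algebra E D]
    (r : ℕ) [NeZero r] (e : K ≃ₐ[E] Matrix (Fin r) (Fin r) D)
    (hc : ∀ x : K, (∀ y : K, x * y = y * x) → ∃ c : E, algebraMap E K c = x)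
    (x : D) (hx : ∀ y : D, x * y = y * x) : ∃ c : E, algebraMap E D c = x := by
  obtain ⟨c, hc'⟩ := hc (e.symm (Matrix.scalar (Fin r) x)) (by
    intro y
    apply e.injective
    rw [map_mul, map_mul, AlgEquiv.apply_symm_apply]
    ext i j
    simp [Matrix.scalar_apply, Matrix.diagonal_mul, Matrix.mul_diagonal, hx])
  refine ⟨c, ?_⟩
  have h1 : algebraMap E (Matrix (Fin r) (Fin r) D) c = Matrix.scalar (Fin r) x := by
    rw [← e.commutes, hc', AlgEquiv.apply_symm_apply]
  have h2 := congrFun (congrFun h1 0) 0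
  simpa [Matrix.algebraMap_matrix_apply] using h2

theorem st_CS2 (hSPL : ST_SPL.{u}) : ST_CS2.{u} := by
  intro E _ _
  refine ⟨?_, ?_⟩
  · intro K _ _ hK
    haveI := hK.sim
    haveI := hK.fin
    haveI : IsArtinianRing K := IsArtinianRing.of_finite E K
    obtain ⟨r, hr, D, _, _, hD, ⟨e⟩⟩ := IsSimpleRing.exists_algEquiv_matrix_divisionRing_finite E K
    haveI : FiniteDimensional E D := hD
    have hcen := cs2_cen r e hK.cen
    obtain ⟨n, hn, hf, -⟩ := hSPL E D ⟨inferInstance, hD, hcen⟩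
    refine ⟨r, n, D, inferInstance, inferInstance, ⟨⟨fun x => Algebra.IsIntegral.isIntegral x, hcen⟩,
      hn, hD, hf⟩, ⟨Nat.pos_of_ne_zero (NeZero.ne r), ⟨e⟩⟩, ?_⟩
    rw [e.toLinearEquiv.finrank_eq, Module.finrank_matrix, hf]
    simp
    ring
  · intro L _ _ n h
    exact ⟨inferInstance, h.2.2.1, h.1.cen⟩

end

end Pool.Agent.Helper46.KZ
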