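import Pool.Agent.Helper91.KZ.StS

/-!
# MP_1d885e_al: module CYG
-/

namespace Pool.Agent.Helper46.KZ

open Polynomial TensorProduct Pool.Agent.Helper91.KZ

universe u

noncomputable section

section basic

variable {E T C : Type u} [Field E] [Field T] [Algebra E T] [DivisionRing C] [Algebra E C]

theorem cyg_pow (σ : T ≃ₐ[E] T) (i : T →ₐ[E] C) (y : C) (h : ∀ t, y * i t = i (σ t) * y)
    (k : ℕ) (t : T) : y ^ k * i t = i ((σ ^ k) t) * y ^ k := by
  induction k generalizing t with
  | zero => simp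
  | succ k ih =>
    rw [pow_succ, mul_assoc, h, ← mul_assoc, ih, mul_assoc, ← pow_succ]
    congr 2

theorem cyg_ind (σ : T ≃ₐ[E] T) (i : T →ₐ[E] C) (y : C) (h : ∀ t, y * i t = i (σ t) * y)
    (hy : y ≠ 0) (s : Finset ℕ) (hs : ∀ k ∈ s, ∀ l ∈ s, k ≠ l → σ ^ k ≠ σ ^ l) :
    ∀ c : ℕ → T, ∑ k ∈ s, i (c k) * y ^ k = 0 → ∀ k ∈ s, c k = 0 := by
  induction s using Finset.induction_on with
  | empty => intro c _ k hk; simp at hk
  | insert a s ha ih =>
    intro c hc
    have hs' : ∀ k ∈ s, ∀ l ∈ s, k ≠ l → σ ^ k ≠ σ ^ l := fun k hk l hl hkl =>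
      hs k (Finset.mem_insert_of_mem hk) l (Finset.mem_insert_of_mem hl) hkl
    have key : ∀ k ∈ s, c k = 0 := by
      intro k hk
      have hne : σ ^ k ≠ σ ^ a := hs k (Finset.mem_insert_of_mem hk) a (Finset.mem_insert_self _ _)
        (fun e => ha (e ▸ hk))
      obtain ⟨t, ht⟩ : ∃ t, (σ ^ k) t ≠ (σ ^ a) t := by
        by_contra hcon
        push Not at hcon
        exact hne (AlgEquiv.ext hcon)
      have h1 : ∑ l ∈ s, i (c l * ((σ ^ l) t - (σ ^ a) t)) * y ^ l = 0 := by
        have h2 : (∑ l ∈ insert a s, i (c l) * y ^ l) * i t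
            - i ((σ ^ a) t) * ∑ l ∈ insert a s, i (c l) * y ^ l = 0 := by rw [hc]; simp
        rw [Finset.sum_mul, Finset.mul_sum, ← Finset.sum_sub_distrib, Finset.sum_insert ha] at h2
        have h3 : i (c a) * y ^ a * i t - i ((σ ^ a) t) * (i (c a) * y ^ a) = 0 := by
          rw [mul_assoc, cyg_pow σ i y h, ← mul_assoc, ← mul_assoc, ← map_mul, ← map_mul,
            mul_comm (c a), sub_self]
        rw [h3, zero_add] at h2
        rw [← h2]
        refine Finset.sum_congr rfl fun l _ => ?_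
        rw [mul_assoc (i (c l)), cyg_pow σ i y h, ← mul_assoc, ← mul_assoc, ← map_mul, ← map_mul,
          ← sub_mul, ← map_sub]
        congr 2
        ring
      have h4 := ih hs' (fun l => c l * ((σ ^ l) t - (σ ^ a) t)) h1 k hk
      rcases mul_eq_zero.1 h4 with h5 | h5
      · exact h5
      · exact absurd (sub_eq_zero.1 h5) ht
    intro k hk
    rcases Finset.mem_insert.1 hk with rfl | hk
    · rw [Finset.sum_insert ha, Finset.sum_eq_zero (fun l hl => by rw [key l hl]; simp),
        add_zero] at hc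
      have h6 := (mul_eq_zero.1 hc).resolve_right (pow_ne_zero _ hy)
      exact (map_eq_zero i).1 h6
    · exact key k hk

/-- the linear map -/
def cygL (i : T →ₐ[E] C) (y : C) (p : ℕ) : (Fin p → T) →ₗ[E] C :=
  ∑ k : Fin p, (LinearMap.mulRight E (y ^ (k : ℕ))) ∘ₗ i.toLinearMap ∘ₗ LinearMap.proj k

theorem cygL_apply (i : T →ₐ[E] C) (y : C) (p : ℕ) (c : Fin p → T) :
    cygL i y p c = ∑ k : Fin p, i (c k) * y ^ (k : ℕ) := by
  simp [cygL, LinearMap.sum_apply]

theorem cyg_mem (i : T →ₐ[E] C) (y : C) (p : ℕ) (hp : 0 < p) (z : E)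
    (hz : y ^ p = algebraMap E C z) (t : T) (n : ℕ) :
    i t * y ^ n ∈ LinearMap.range (cygL i y p) := by
  have h1 : y ^ n = algebraMap E C (z ^ (n / p)) * y ^ (n % p) := by
    conv_lhs => rw [← Nat.mod_add_div n p]
    rw [pow_add, pow_mul, hz, ← map_pow, Algebra.commutes]
  have h2 : i t * y ^ n = z ^ (n / p) • (i t * y ^ (n % p)) := by
    rw [h1, Algebra.smul_def, ← mul_assoc, ← mul_assoc, Algebra.commutes]
  rw [h2]
  refine Submodule.smul_mem _ _ ⟨Pi.single ⟨n % p, Nat.mod_lt _ hp⟩ t, ?_⟩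
  rw [cygL_apply, Finset.sum_eq_single (⟨n % p, Nat.mod_lt _ hp⟩ : Fin p)]
  · simp
  · intro b _ hb
    rw [Pi.single_eq_of_ne hb]
    simp
  · intro h; exact absurd (Finset.mem_univ _) h

/-- the subalgebra -/
def cygS (σ : T ≃ₐ[E] T) (i : T →ₐ[E] C) (y : C) (h : ∀ t, y * i t = i (σ t) * y)
    (p : ℕ) (hp : 0 < p) (z : E) (hz : y ^ p = algebraMap E C z) : Subalgebra E C where
  carrier := LinearMap.range (cygL i y p)
  mul_mem' := by
    rintro a b ⟨c, rfl⟩ ⟨d, rfl⟩
    rw [cygL_apply, cygL_apply, Finset.sum_mul_sum]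
    refine Submodule.sum_mem _ fun k _ => Submodule.sum_mem _ fun l _ => ?_
    have : i (c k) * y ^ (k : ℕ) * (i (d l) * y ^ (l : ℕ))
        = i (c k * (σ ^ (k : ℕ)) (d l)) * y ^ ((k : ℕ) + l) := by
      rw [map_mul, pow_add, mul_assoc, ← mul_assoc (y ^ (k : ℕ)), cyg_pow σ i y h, mul_assoc,
        mul_assoc]
    rw [this]
    exact cyg_mem i y p hp z hz _ _
  add_mem' := fun ha hb => Submodule.add_mem _ ha hb
  algebraMap_mem' := fun r => by
    have := cyg_mem i y p hp z hz (algebraMap E T r) 0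
    rwa [pow_zero, mul_one, AlgHom.commutes] at this

end basic

theorem st_CYG : ST_CYG := by
  intro E T C _ _ _ _ _ _ _ p σ i y z hp hT hσ hy h hz
  have hp0 : 0 < p := hp.pos
  have hcard : Nat.card (T ≃ₐ[E] T) = p := by rw [IsGalois.card_aut_eq_finrank, hT]
  have hord : orderOf σ = p := by
    have h1 : σ ^ p = 1 := by rw [← hcard]; exact pow_card_eq_one'
    haveI := Fact.mk hp
    exact orderOf_eq_prime h1 hσ
  have hinj : ∀ k ∈ Finset.range p, ∀ l ∈ Finset.range p, k ≠ l → σ ^ k ≠ σ ^ l := by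
    intro k hk l hl hkl e
    rw [Finset.mem_range] at hk hl
    rw [← hord] at hk hl
    exact hkl (pow_injOn_Iio_orderOf hk hl e)
  have hind := cyg_ind σ i y h hy (Finset.range p) hinj
  have hsum : ∀ c : Fin p → T, cygL i y p c
      = ∑ k ∈ Finset.range p, i ((fun n => if hn : n < p then c ⟨n, hn⟩ else 0) k) * y ^ k := by
    intro c
    rw [cygL_apply, Finset.sum_range]
    refine Finset.sum_congr rfl fun k _ => ?_
    simp
  have hLinj : Function.Injective (cygL i y p) := by
    rw [← LinearMap.ker_eq_bot, LinearMap.ker_eq_bot']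
    intro c hc
    rw [hsum] at hc
    have h1 := hind _ hc
    funext k
    have h2 := h1 k (Finset.mem_range.2 k.2)
    simpa using h2
  let S := cygS σ i y h p hp0 z hz
  have hSmem : ∀ x : C, x ∈ S ↔ ∃ c : Fin p → T, cygL i y p c = x := fun x => Iff.rfl
  let eS : (Fin p → T) ≃ₗ[E] S :=
    LinearEquiv.ofBijective ((cygL i y p).codRestrict (Subalgebra.toSubmodule S)
      (fun c => ⟨c, rfl⟩)) ⟨fun a b hab => hLinj (congrArg Subtype.val hab),
        fun x => by
          obtain ⟨c, hc⟩ := x.2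
          exact ⟨c, Subtype.ext hc⟩⟩
  haveI hfin : FiniteDimensional E S := Module.Finite.equiv eS
  have hdim : Module.finrank E S = p ^ 2 := by
    rw [← LinearEquiv.finrank_eq eS, Module.finrank_pi_fintype]
    simp [hT, sq]
  have hiS : ∀ t, i t ∈ S := fun t => by
    have := cyg_mem i y p hp0 z hz t 0
    rwa [pow_zero, mul_one] at this
  have hyS : y ∈ S := by
    have := cyg_mem i y p hp0 z hz 1 1
    rwa [pow_one, map_one, one_mul] at this
  let dS : DivisionRing S := divisionRingOfFiniteDimensional E S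
  let i' : T →ₐ[E] S := i.codRestrict S hiS
  let y' : S := ⟨y, hyS⟩
  have hz0 : z ≠ 0 := by
    rintro rfl
    rw [map_zero] at hz
    exact pow_ne_zero _ hy hz
  have hcen : ∀ x : S, (∀ w : S, x * w = w * x) → ∃ e : E, algebraMap E S e = x := by
    intro x hx
    obtain ⟨c, hc⟩ := x.2
    have h1 : ∀ s : T, ∀ k ∈ Finset.range p,
        (if hn : k < p then c ⟨k, hn⟩ else 0) * ((σ ^ k) s - s) = 0 := by
      intro s
      refine hind (fun k => (if hn : k < p then c ⟨k, hn⟩ else 0) * ((σ ^ k) s - s)) ?_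
      have h2 : (x : C) * i s = i s * x := congrArg Subtype.val (hx ⟨i s, hiS s⟩)
      rw [← hc, hsum, Finset.sum_mul, Finset.mul_sum, ← sub_eq_zero, ← Finset.sum_sub_distrib] at h2
      rw [← h2]
      refine Finset.sum_congr rfl fun k _ => ?_
      beta_reduce
      rw [mul_assoc (i _), cyg_pow σ i y h, ← mul_assoc, ← mul_assoc, ← map_mul, ← map_mul,
        ← sub_mul, ← map_sub]
      congr 2
      ring
    have h3 : ∀ k : Fin p, (k : ℕ) ≠ 0 → c k = 0 := by
      intro k hk
      have hne : σ ^ (k : ℕ) ≠ 1 := by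
        have := hinj k (Finset.mem_range.2 k.2) 0 (Finset.mem_range.2 hp0) hk
        simpa using this
      obtain ⟨s, hs⟩ : ∃ s, (σ ^ (k : ℕ)) s ≠ s := by
        by_contra hcon
        push Not at hcon
        exact hne (AlgEquiv.ext hcon)
      have h4 := h1 s k (Finset.mem_range.2 k.2)
      rw [dif_pos k.2] at h4
      exact (mul_eq_zero.1 h4).resolve_right (sub_ne_zero.2 hs)
    have h5 : (x : C) = i (c ⟨0, hp0⟩) := by
      rw [← hc, cygL_apply, Finset.sum_eq_single (⟨0, hp0⟩ : Fin p)]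
      · simp
      · intro b _ hb
        rw [h3 b (fun e => hb (Fin.ext e))]
        simp
      · intro h; exact absurd (Finset.mem_univ _) h
    have h6 : σ (c ⟨0, hp0⟩) = c ⟨0, hp0⟩ := by
      have h7 : (x : C) * y = y * x := congrArg Subtype.val (hx ⟨y, hyS⟩)
      rw [h5, h] at h7
      exact (i.toRingHom.injective (mul_right_cancel₀ hy h7)).symm
    have h8 : ∀ f : T ≃ₐ[E] T, f (c ⟨0, hp0⟩) = c ⟨0, hp0⟩ := by
      intro f
      haveI := Fact.mk hp
      obtain ⟨j, hj⟩ : ∃ j : ℕ, σ ^ j = f := by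
        have : f ∈ Subgroup.zpowers σ := mem_zpowers_of_prime_card hcard hσ
        exact (isOfFinOrder_of_finite σ).mem_powers_iff_mem_zpowers.2 this
      rw [← hj]
      clear hj
      induction j with
      | zero => simp
      | succ j ih => rw [pow_succ, AlgEquiv.mul_apply, h6, ih]
    obtain ⟨e, he⟩ := (IntermediateField.mem_bot.1 ((IsGalois.mem_bot_iff_fixed _).2 h8))
    refine ⟨e, Subtype.ext ?_⟩
    rw [h5, ← he, AlgHom.commutes]
    rfl
  refine ⟨S, dS, inferInstance, S.val, i', y', fun t => rfl, rfl, ⟨⟨fun x => ?_, hcen⟩, hp0, hfin,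
    hdim⟩, ⟨⟨inferInstance, hfin, hcen⟩, hdim, fun t => Subtype.ext (h t), Subtype.ext hz, hz0⟩⟩
  exact Algebra.IsIntegral.isIntegral x

end

end Pool.Agent.Helper46.KZ
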