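import Pool.Agent.Helper91.KZ.StG

/-!
# MP_1d885e_al: module DET
-/

namespace Pool.Agent.Helper46.KZ

open Polynomial TensorProduct Pool.Agent.Helper91.KZ

universe u

noncomputable section

section basic

variable {K A : Type u} [Field K] [Ring A] [Algebra K A]

theorem fp_coeff (f : A →ₗ[K] K) (v : A[X]) (k : ℕ) : (fp f v).coeff k = f (v.coeff k) := by
  classical
  simp only [fp, Polynomial.sum, finset_sum_coeff, coeff_monomial]
  rw [Finset.sum_ite_eq' v.support k]
  split_ifs with h
  · rfl
  · rw [notMem_support_iff.1 h, map_zero]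

theorem fp_add (f : A →ₗ[K] K) (v w : A[X]) : fp f (v + w) = fp f v + fp f w := by
  ext k; simp [fp_coeff]

theorem fp_zero (f : A →ₗ[K] K) : fp f (0 : A[X]) = 0 := by
  ext k; simp [fp_coeff]

theorem fp_sum (f : A →ₗ[K] K) {ι : Type*} (s : Finset ι) (v : ι → A[X]) :
    fp f (∑ i ∈ s, v i) = ∑ i ∈ s, fp f (v i) := by
  classical
  induction s using Finset.induction_on with
  | empty => simp [fp_zero]
  | insert a s ha ih => rw [Finset.sum_insert ha, Finset.sum_insert ha, fp_add, ih]

theorem fp_ca_mul (f : A →ₗ[K] K) (c : K[X]) (v : A[X]) : fp f (ca A c * v) = c * fp f v := by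
  ext k
  rw [fp_coeff, coeff_mul, coeff_mul, map_sum]
  refine Finset.sum_congr rfl fun x _ => ?_
  rw [ca, coeff_map, ← Algebra.smul_def, map_smul, fp_coeff, smul_eq_mul]

end basic

theorem st_DET : ST_DET.{u} := by
  intro K A _ _ _ n
  induction n with
  | zero =>
    intro v _
    exact ⟨fun i => i.elim0, by simp⟩
  | succ n ih =>
    intro v hv
    obtain ⟨f', hf'⟩ := ih (fun i => v i.castSucc) (by
      intro c hc
      have h1 := hv (Fin.snoc (α := fun _ => K[X]) c 0) (by
        rw [Fin.sum_univ_castSucc]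
        simpa [ca] using hc)
      funext i
      have h2 := congrFun h1 i.castSucc
      simpa using h2)
    let C : Fin (n + 1) → K[X] := fun j =>
      (-1) ^ (n + (j : ℕ)) * (Matrix.of fun i k => fp (f' i) (v (j.succAbove k))).det
    have hC : C ≠ 0 := by
      intro h
      have h1 := congrFun h (Fin.last n)
      simp only [C, Fin.succAbove_last, Pi.zero_apply, mul_eq_zero] at h1
      rcases h1 with h1 | h1
      · exact (pow_ne_zero _ (neg_ne_zero.2 one_ne_zero)) h1
      · exact hf' h1
    have hw : ∑ i, ca A (C i) * v i ≠ 0 := fun h => hC (hv C h)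
    obtain ⟨k, hk⟩ : ∃ k, (∑ i, ca A (C i) * v i).coeff k ≠ 0 := by
      by_contra hcon
      push Not at hcon
      exact hw (Polynomial.ext (by simpa using hcon))
    obtain ⟨g, hg⟩ : ∃ g : A →ₗ[K] K, g ((∑ i, ca A (C i) * v i).coeff k) ≠ 0 := by
      by_contra hcon
      push Not at hcon
      exact hk ((Module.forall_dual_apply_eq_zero_iff K _).1 hcon)
    refine ⟨Fin.snoc (α := fun _ => A →ₗ[K] K) f' g, ?_⟩
    have hdet : (Matrix.of fun i j => fp ((Fin.snoc (α := fun _ => A →ₗ[K] K) f' g :
        Fin (n + 1) → (A →ₗ[K] K)) i) (v j)).det = fp g (∑ i, ca A (C i) * v i) := by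
      rw [Matrix.det_succ_row _ (Fin.last n), fp_sum]
      refine Finset.sum_congr rfl fun j _ => ?_
      rw [fp_ca_mul]
      have h3 : ((Matrix.of fun i j => fp ((Fin.snoc (α := fun _ => A →ₗ[K] K) f' g :
        Fin (n + 1) → (A →ₗ[K] K)) i) (v j)).submatrix (Fin.last n).succAbove j.succAbove)
          = Matrix.of fun i k => fp (f' i) (v (j.succAbove k)) := by
        ext1 a b
        simp [Matrix.submatrix_apply, Fin.succAbove_last]
      rw [h3]
      simp only [Matrix.of_apply, Fin.snoc_last, Fin.val_last, C]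
      ring
    rw [hdet]
    intro h
    apply hg
    rw [← fp_coeff, h, coeff_zero]

end

end Pool.Agent.Helper46.KZ
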