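import Pool.Agent.Helper91.KZ.StL

/-!
# MP_1d885e_al: module QON
-/

namespace Pool.Agent.Helper46.KZ

open Polynomial TensorProduct Pool.Agent.Helper91.KZ

universe u

noncomputable section

theorem st_QON : ST_QON.{u} := by
  classical
  intro F D K C _ _ _ _ _ _ _ n hn hK ⟨e⟩
  haveI := hK.2.2.1
  let f : K →ₐ[F] D := e.toAlgHom.comp Algebra.TensorProduct.includeLeft
  have hf : Function.Injective f := f.toRingHom.injective
  have hnc : ∃ a b : K, a * b ≠ b * a := by
    by_contra hcon
    push Not at hcon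
    have h1 : Module.finrank F K ≤ 1 := by
      refine finrank_le_one (1 : K) fun w => ?_
      obtain ⟨r, hr⟩ := hK.1.cen w (fun y => hcon w y)
      exact ⟨r, by rw [← hr, Algebra.algebraMap_eq_smul_one]⟩
    rw [hK.2.2.2] at h1
    nlinarith
  obtain ⟨a, b, hab⟩ := hnc
  let B := Module.finBasis F K
  have hBi : Function.Injective (fun i => f (B i)) := fun i j hij => B.injective (hf hij)
  refine ⟨f.toRingHom.fieldRange, ⟨f a, ⟨a, rfl⟩, f b, ⟨b, rfl⟩, fun h => hab (hf (by
    rw [map_mul, map_mul]; exact h))⟩, Finset.univ.image (fun i => f (B i)), ?_, ?_⟩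
  · intro t ht
    obtain ⟨i, _, rfl⟩ := Finset.mem_image.1 ht
    exact ⟨B i, rfl⟩
  · rintro x ⟨k, rfl⟩
    have hc : ∀ i, (if h : ∃ j, f (B j) = f (B i) then algebraMap F D (B.repr k h.choose) else 0)
        = algebraMap F D (B.repr k i) := by
      intro i
      have h : ∃ j, f (B j) = f (B i) := ⟨i, rfl⟩
      rw [dif_pos h, hBi h.choose_spec]
    refine ⟨fun t => if h : ∃ j, f (B j) = t then algebraMap F D (B.repr k h.choose) else 0,
      ?_, ?_⟩
    · intro t ht
      obtain ⟨i, _, rfl⟩ := Finset.mem_image.1 ht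
      beta_reduce
      rw [hc]
      exact ⟨⟨algebraMap F K (B.repr k i), f.commutes _⟩, fun y _ => Algebra.commutes _ _⟩
    · rw [Finset.sum_image (fun i _ j _ h => hBi h)]
      have h2 : ∀ i ∈ Finset.univ, (fun t => if h : ∃ j, f (B j) = t then
          algebraMap F D (B.repr k h.choose) else 0) (f (B i)) * f (B i)
          = f (B.repr k i • B i) := by
        intro i _
        beta_reduce
        rw [hc, map_smul, Algebra.smul_def]
      rw [Finset.sum_congr rfl h2, ← map_sum, B.sum_repr]
      rfl

end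

end Pool.Agent.Helper46.KZ
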