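import Pool.Agent.Helper91.KZ.StS
import Pool.Agent.Helper78.DR.Dcc

/-!
# MP_1d885e_al: module SKN
-/

namespace Pool.Agent.Helper46.KZ

open Polynomial TensorProduct Pool.Agent.Helper91.KZ

universe u

noncomputable section

theorem skn_semi {E D : Type u} [Field E] [DivisionRing D] [Algebra E D] (w a b : D)
    (h : SemiconjBy w a b) (f : E[X]) : SemiconjBy w (aeval a f) (aeval b f) := by
  induction f using Polynomial.induction_on' with
  | add p q hp hq => rw [map_add, map_add]; exact hp.add_right hq
  | monomial n c =>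
    rw [aeval_monomial, aeval_monomial]
    exact SemiconjBy.mul_right (Algebra.commutes c w).symm (h.pow_right n)

theorem st_SKN : ST_SKN.{u} := by
  intro E D M _ _ _ _ _ _ _ i j hD
  let pb := Field.powerBasisOfFiniteOfSeparable E M
  let φ : E →+* Subring.center D := (algebraMap E D).codRestrict (Subring.center D)
    (fun e => Subring.mem_center_iff.2 fun g => (Algebra.commutes e g).symm)
  have hφ : Function.Surjective φ := by
    intro x
    obtain ⟨e, he⟩ := hD.cen (x : D) (fun y => (Subring.mem_center_iff.1 x.2 y).symm)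
    exact ⟨e, Subtype.ext he⟩
  have hev : ∀ (a : D) (p : E[X]), aeval a (p.map φ) = aeval a p := by
    intro a p
    rw [aeval_def, eval₂_map, aeval_def]
    rfl
  have hint : IsIntegral (Subring.center D) (i pb.gen) := by
    refine ⟨(minpoly E (i pb.gen)).map φ, (minpoly.monic (hD.alg _)).map φ, ?_⟩
    rw [← aeval_def, hev, minpoly.aeval]
  obtain ⟨w, hw, hwe⟩ := Pool.Agent.Helper78.DR.conj_root (i pb.gen) (j pb.gen) hint (by
    obtain ⟨G, hG⟩ := Polynomial.map_surjective φ hφ (minpoly (Subring.center D) (i pb.gen))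
    have h1 : aeval (i pb.gen) G = 0 := by rw [← hev, hG, minpoly.aeval]
    have h2 : aeval pb.gen G = 0 := by
      rw [aeval_algHom_apply] at h1
      exact (map_eq_zero i).1 h1
    rw [← hG, hev, aeval_algHom_apply, h2, map_zero])
  refine ⟨w, hw, fun m => ?_⟩
  obtain ⟨f, rfl⟩ := pb.exists_eq_aeval' m
  rw [← aeval_algHom_apply, ← aeval_algHom_apply]
  exact skn_semi w _ _ hwe.symm f

end

end Pool.Agent.Helper46.KZ
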