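import Pool.Agent.Helper91.KZ.StS

/-!
# MP_1d885e_al: module STP
-/

namespace Pool.Agent.Helper46.KZ

open Polynomial TensorProduct Pool.Agent.Helper91.KZ

universe u

noncomputable section

theorem stp_group {G : Type u} [Group G] [Finite G] (p t : ℕ) (hp : p.Prime)
    (hG : Nat.card G = p ^ t) (H : Subgroup G) (hH : H ≠ ⊤) :
    ∃ M : Subgroup G, H ≤ M ∧ M.Normal ∧ M.index = p := by
  haveI := Fact.mk hp
  obtain ⟨M, hM, hHM⟩ := (eq_top_or_exists_le_coatom H).resolve_left hH
  have hpG : IsPGroup p G := IsPGroup.of_card hG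
  haveI : Group.IsNilpotent G := hpG.isNilpotent
  have hnc : NormalizerCondition G := Group.normalizerCondition_of_isNilpotent
  refine ⟨M, hHM, Subgroup.NormalizerCondition.normal_of_coatom M hnc hM, ?_⟩
  obtain ⟨s, hs⟩ := (IsPGroup.iff_card.1 (hpG.to_subgroup M))
  have h1 : M.index * p ^ s = p ^ t := by rw [← hs, M.index_mul_card, hG]
  have hst : s < t := by
    by_contra hcon
    push Not at hcon
    have h2 : M.index ≠ 1 := fun h => hM.1 (Subgroup.index_eq_one.1 h)
    have h3 : 1 < M.index := lt_of_le_of_ne (Nat.pos_of_ne_zero M.index_ne_zero_of_finite) h2.symm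
    have h4 : p ^ t ≤ p ^ s := Nat.pow_le_pow_right hp.pos hcon
    have h5 : p ^ s < M.index * p ^ s := lt_mul_of_one_lt_left (pow_pos hp.pos _) h3
    omega
  obtain ⟨K, hK, hMK⟩ := Sylow.exists_subgroup_card_pow_succ (G := G) (p := p) (n := s)
    (by rw [hG]; exact pow_dvd_pow p hst) hs
  have hMK' : M < K := lt_of_le_of_ne hMK (by
    rintro rfl
    rw [hs] at hK
    exact absurd (Nat.pow_right_injective hp.two_le hK) (by omega))
  have hKt := hM.2 K hMK'
  rw [hKt, Subgroup.card_top, hG] at hK
  rw [hK, pow_succ, mul_comm] at h1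
  exact Nat.eq_of_mul_eq_mul_left (pow_pos hp.pos s) h1

theorem st_STP : ST_STP.{u} := by
  intro E N _ _ _ _ _ p t hp hN L hL
  have hLf : IntermediateField.fixedField L.fixingSubgroup = L :=
    IsGalois.fixedField_fixingSubgroup L
  obtain ⟨M, hHM, hMn, hMi⟩ := stp_group p t hp
    (by rw [IsGalois.card_aut_eq_finrank, hN]) L.fixingSubgroup (by
      intro h
      apply hL
      rw [← hLf, h]
      exact IsGalois.fixedField_top)
  refine ⟨IntermediateField.fixedField M, ?_, IsGalois.of_fixedField_normal_subgroup M, ?_⟩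
  · rw [← hLf]
    exact IntermediateField.fixedField_antitone hHM
  · rw [← hMi]
    have h1 := IntermediateField.finrank_fixedField_eq_card M
    have h2 := Module.finrank_mul_finrank E (IntermediateField.fixedField M) N
    rw [h1, ← IsGalois.card_aut_eq_finrank E N, ← M.index_mul_card] at h2
    exact Nat.eq_of_mul_eq_mul_right Nat.card_pos h2

end

end Pool.Agent.Helper46.KZ
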