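import Pool.Agent.Helper91.KZ.StS

/-!
# MP_1d885e_al: module SUB
-/

namespace Pool.Agent.Helper46.KZ

open Polynomial TensorProduct Pool.Agent.Helper91.KZ

universe u

noncomputable section

section basic

variable {E K D : Type u} [Field E] [DivisionRing D] [Algebra E D] [DivisionRing K] [Algebra E K]

/-- the two-sided action on `D` -/
def subR (i : K →ₐ[E] D) : K ⊗[E] Kᵐᵒᵖ →ₐ[E] Module.End E D :=
  (AlgHom.mulLeftRight E D).comp (Algebra.TensorProduct.map i (AlgHom.op i))

theorem subR_tmul (i : K →ₐ[E] D) (a : K) (b : Kᵐᵒᵖ) (d : D) :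
    subR i (a ⊗ₜ b) d = i a * d * i b.unop := by
  simp [subR]

theorem subR_left (i : K →ₐ[E] D) (q : K ⊗[E] Kᵐᵒᵖ) (k : K) :
    subR i q (i k) = i (AlgHom.mulLeftRight E K q k) := by
  induction q using TensorProduct.induction_on with
  | zero => simp
  | tmul a b => rw [subR_tmul, AlgHom.mulLeftRight_apply]; simp
  | add x y hx hy => simp only [map_add, LinearMap.add_apply, hx, hy]

theorem subR_mul (i : K →ₐ[E] D) (q : K ⊗[E] Kᵐᵒᵖ) (d c : D) (hc : ∀ k, i k * c = c * i k) :
    subR i q (d * c) = subR i q d * c := by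
  induction q using TensorProduct.induction_on with
  | zero => simp
  | tmul a b => simp only [subR_tmul, mul_assoc, hc]
  | add x y hx hy => simp only [map_add, LinearMap.add_apply, hx, hy, add_mul]

/-- the centralizer -/
abbrev subC (i : K →ₐ[E] D) : Subalgebra E D := Subalgebra.centralizer E (Set.range i)

theorem subC_mem (i : K →ₐ[E] D) (d : D) : d ∈ subC i ↔ ∀ k, i k * d = d * i k := by
  rw [Subalgebra.mem_centralizer_iff]
  constructor
  · intro h k; exact h _ ⟨k, rfl⟩
  · rintro h _ ⟨k, rfl⟩; exact h k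

end basic

theorem st_SUB (hCS1 : ST_CS1.{u}) (hCS3 : ST_CS3.{u}) (_hCS2 : ST_CS2.{u}) : ST_SUB.{u} := by
  intro E D K _ _ _ _ _ n hD hK ⟨i⟩
  have hKcs : CS E K := by
    refine ⟨inferInstance, hK.2.2.1, hK.1.cen⟩
  haveI hKf : FiniteDimensional E K := hK.2.2.1
  have hKop : CS E Kᵐᵒᵖ := ((hCS3 E).1 K hKcs).1
  have hT : CS E (K ⊗[E] Kᵐᵒᵖ) := (hCS1 E).1 K Kᵐᵒᵖ hKcs hKop
  haveI := hT.sim
  haveI := hT.fin
  let Θ := AlgHom.mulLeftRight E K
  have hΘi : Function.Injective Θ := RingHom.injective Θ.toRingHom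
  have hΘs : Function.Surjective Θ := by
    have hd : Module.finrank E (K ⊗[E] Kᵐᵒᵖ) = Module.finrank E (Module.End E K) := by
      rw [Module.finrank_tensorProduct, Module.finrank_linearMap,
        ← LinearEquiv.finrank_eq (MulOpposite.opLinearEquiv E : K ≃ₗ[E] Kᵐᵒᵖ)]
    exact (LinearMap.injective_iff_surjective_of_finrank_eq_finrank hd
      (f := Θ.toLinearMap)).1 hΘi
  let e := Module.finBasis E K
  choose P hP using fun l => hΘs (LinearMap.toSpanSingleton E K 1 ∘ₗ e.coord l)
  have hP' : ∀ l x, Θ (P l) x = algebraMap E K (e.coord l x) := by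
    intro l x
    rw [hP]
    simp [Algebra.algebraMap_eq_smul_one]
  have h1 : ∀ (k : K) l, (k ⊗ₜ[E] (1 : Kᵐᵒᵖ)) * P l = ((1 : K) ⊗ₜ[E] MulOpposite.op k) * P l := by
    intro k l
    apply hΘi
    rw [map_mul, map_mul]
    refine LinearMap.ext fun x => ?_
    rw [Module.End.mul_apply, Module.End.mul_apply, AlgHom.mulLeftRight_apply,
      AlgHom.mulLeftRight_apply, hP']
    simp [Algebra.commutes]
  have h2 : ∑ l, (e l ⊗ₜ[E] (1 : Kᵐᵒᵖ)) * P l = 1 := by
    apply hΘi
    rw [map_sum, map_one]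
    refine LinearMap.ext fun x => ?_
    rw [LinearMap.sum_apply]
    conv_rhs => rw [Module.End.one_apply, ← e.sum_repr x]
    refine Finset.sum_congr rfl fun l _ => ?_
    rw [map_mul, Module.End.mul_apply, AlgHom.mulLeftRight_apply, hP']
    simp [Algebra.smul_def, Algebra.commutes]
  have h3 : ∀ l d, subR i (P l) d ∈ subC i := by
    intro l d
    rw [subC_mem]
    intro k
    have h4 : subR i ((k ⊗ₜ[E] (1 : Kᵐᵒᵖ)) * P l) d
        = subR i (((1 : K) ⊗ₜ[E] MulOpposite.op k) * P l) d := by rw [h1]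
    rw [map_mul, map_mul, Module.End.mul_apply, Module.End.mul_apply, subR_tmul, subR_tmul] at h4
    simpa using h4
  have h5 : ∀ d, ∑ l, i (e l) * subR i (P l) d = d := by
    intro d
    have h6 : subR i (∑ l, (e l ⊗ₜ[E] (1 : Kᵐᵒᵖ)) * P l) d = d := by rw [h2]; simp
    rw [map_sum, LinearMap.sum_apply] at h6
    conv_rhs => rw [← h6]
    refine Finset.sum_congr rfl fun l _ => ?_
    rw [map_mul, Module.End.mul_apply, subR_tmul]
    simp
  have hu : ∀ a : subC i, IsUnit a ∨ a = 0 := by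
    intro a
    by_cases ha : (a : D) = 0
    · right; exact Subtype.ext ha
    · left
      have hinv : (a : D)⁻¹ ∈ subC i := by
        rw [subC_mem]
        intro k
        have := (subC_mem i a).1 a.2 k
        exact (Commute.inv_right₀ (this : Commute (i k) (a : D))).eq
      exact ⟨⟨a, ⟨_, hinv⟩, Subtype.ext (mul_inv_cancel₀ ha), Subtype.ext (inv_mul_cancel₀ ha)⟩, rfl⟩
  haveI : Nontrivial (subC i) := inferInstance
  let dC : DivisionRing (subC i) := DivisionRing.ofIsUnitOrEqZero hu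
  let Ψ : K ⊗[E] subC i →ₐ[E] D := Algebra.TensorProduct.lift i (subC i).val
    (fun k c => (subC_mem i c).1 c.2 k)
  have hΨt : ∀ (k : K) (c : subC i), Ψ (k ⊗ₜ c) = i k * c := fun k c => by
    simp [Ψ]
  have hΨs : Function.Surjective Ψ := by
    intro d
    refine ⟨∑ l, e l ⊗ₜ (⟨subR i (P l) d, h3 l d⟩ : subC i), ?_⟩
    rw [map_sum]
    conv_rhs => rw [← h5 d]
    exact Finset.sum_congr rfl fun l _ => hΨt _ _
  have hΨi : Function.Injective Ψ := by
    rw [injective_iff_map_eq_zero]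
    intro x hx
    obtain ⟨c, rfl⟩ := TensorProduct.eq_repr_basis_left e x
    rw [Finsupp.sum_fintype _ _ (fun l => by simp)] at hx ⊢
    rw [map_sum] at hx
    have h7 : ∀ m, (c m : D) = 0 := by
      intro m
      have h8 := congrArg (subR i (P m)) hx
      rw [map_sum, map_zero, Finset.sum_eq_single m] at h8
      · rw [hΨt, subR_mul i _ _ _ ((subC_mem i _).1 (c m).2), subR_left] at h8
        change i (Θ (P m) (e m)) * _ = 0 at h8
        rw [hP'] at h8
        simpa using h8
      · intro l _ hl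
        rw [hΨt, subR_mul i _ _ _ ((subC_mem i _).1 (c l).2), subR_left]
        change i (Θ (P m) (e l)) * _ = 0
        rw [hP']
        simp [hl]
      · intro h; exact absurd (Finset.mem_univ _) h
    refine Finset.sum_eq_zero fun l _ => ?_
    rw [show c l = 0 from Subtype.ext (h7 l), TensorProduct.tmul_zero]
  refine ⟨subC i, dC, inferInstance, ⟨fun x => ?_, fun x hx => ?_⟩, ⟨(subC i).val⟩,
    ⟨AlgEquiv.ofBijective Ψ ⟨hΨi, hΨs⟩⟩⟩
  · exact (isIntegral_algHom_iff (subC i).val Subtype.val_injective).1 (hD.alg (x : D))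
  · have h9 : ∀ y : D, (x : D) * y = y * x := by
      intro y
      rw [← h5 y, Finset.mul_sum, Finset.sum_mul]
      refine Finset.sum_congr rfl fun l _ => ?_
      have ha : (x : D) * subR i (P l) y = subR i (P l) y * x :=
        congrArg Subtype.val (hx ⟨subR i (P l) y, h3 l y⟩)
      rw [← mul_assoc, ← (subC_mem i _).1 x.2 (e l), mul_assoc, ha, mul_assoc]
    obtain ⟨r, hr⟩ := hD.cen _ h9
    exact ⟨r, Subtype.ext hr⟩

end

end Pool.Agent.Helper46.KZ
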