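import Pool.Agent.Helper91.KZ.StS

/-!
# MP_1d885e_al: module SYL
-/

namespace Pool.Agent.Helper46.KZ

open Polynomial TensorProduct Pool.Agent.Helper91.KZ

universe u

noncomputable section

theorem syl_index {E N : Type u} [Field E] [Field N] [Algebra E N] [FiniteDimensional E N]
    [IsGalois E N] (H : Subgroup (N ≃ₐ[E] N)) :
    Module.finrank E (IntermediateField.fixedField H) = H.index := by
  have h1 := IntermediateField.finrank_fixedField_eq_card H
  have h2 := Module.finrank_mul_finrank E (IntermediateField.fixedField H) N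
  rw [h1, ← IsGalois.card_aut_eq_finrank E N, ← H.index_mul_card] at h2
  exact Nat.eq_of_mul_eq_mul_right Nat.card_pos h2

theorem st_SYL : ST_SYL.{u} := by
  intro E N _ _ _ _ _ p hp L
  haveI := Fact.mk hp
  let H := L.fixingSubgroup
  have hL : IntermediateField.fixedField H = L := IsGalois.fixedField_fixingSubgroup L
  let Q : Sylow p H := default
  let Q' : Subgroup (N ≃ₐ[E] N) := (Q : Subgroup H).map H.subtype
  have hQ' : IsPGroup p Q' := Q.isPGroup'.map H.subtype
  obtain ⟨P, hP⟩ := hQ'.exists_le_sylow
  have hQH : Q' ≤ H := Subgroup.map_subtype_le _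
  have hcQ : Nat.card Q' = p ^ (Nat.card H).factorization p := by
    rw [← Sylow.card_eq_multiplicity Q]
    exact Subgroup.card_map_of_injective H.subtype_injective
  have hcP : Nat.card P = p ^ (Nat.card (N ≃ₐ[E] N)).factorization p :=
    Sylow.card_eq_multiplicity P
  have hfac : (Nat.card (N ≃ₐ[E] N)).factorization p
      = H.index.factorization p + (Nat.card H).factorization p := by
    rw [← H.index_mul_card, Nat.factorization_mul H.index_ne_zero_of_finite Nat.card_pos.ne']
    rfl
  refine ⟨IntermediateField.fixedField (P : Subgroup (N ≃ₐ[E] N)),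
    IntermediateField.fixedField Q', IntermediateField.fixedField_antitone hP, ?_, ?_, ?_,
    (Nat.card (N ≃ₐ[E] N)).factorization p, ?_⟩
  · rw [← hL]
    exact IntermediateField.fixedField_antitone hQH
  · rw [syl_index]
    exact P.not_dvd_index
  · rw [syl_index, syl_index]
    have h3 : padicValNat p (Module.finrank E L) = H.index.factorization p := by
      conv_lhs => rw [← hL]
      rw [syl_index, Nat.factorization_def _ hp]
    rw [h3]
    have h4 : Q'.index * Nat.card Q' = (P : Subgroup (N ≃ₐ[E] N)).index * Nat.card P := by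
      rw [Subgroup.index_mul_card]
      exact (Subgroup.index_mul_card (P : Subgroup (N ≃ₐ[E] N))).symm
    rw [hcQ, hcP, hfac, pow_add, ← mul_assoc] at h4
    exact Nat.eq_of_mul_eq_mul_right (pow_pos hp.pos _) h4
  · rw [syl_index, ← hcP, ← IsGalois.card_aut_eq_finrank E N]
    exact (Subgroup.index_mul_card (P : Subgroup (N ≃ₐ[E] N))).symm

end

end Pool.Agent.Helper46.KZ
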