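import Pool.Agent.Helper91.KZ.StL

/-!
# MP_1d885e_al: module TL3
-/

namespace Pool.Agent.Helper46.KZ

open Polynomial TensorProduct Pool.Agent.Helper91.KZ

universe u

noncomputable section

theorem st_TL3 (hTL1 : ST_TL1.{u}) : ST_TL3.{u} := by
  intro K L _ _ _ _ i hK r n d hd hr f hf
  classical
  let S : Set L := ⋃ k : Fin r, (f k).coeffs
  have hS : S.Finite := Set.finite_iUnion fun k => Finset.finite_toSet _
  let K1 : IntermediateField K L := IntermediateField.adjoin K S
  haveI : FiniteDimensional K K1 := by
    haveI : Finite S := hS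
    exact IntermediateField.finiteDimensional_adjoin fun x _ => Algebra.IsIntegral.isIntegral x
  have hg : ∀ k : Fin r, ∃ g : MvPolynomial (Fin n) K1,
      MvPolynomial.map (algebraMap K1 L) g = f k := by
    intro k
    have := (MvPolynomial.mem_range_map_iff_coeffs_subset (f := algebraMap K1 L) (x := f k)).2 (by
      intro c hc
      have hcS : c ∈ K1 := IntermediateField.subset_adjoin K S
        (Set.mem_iUnion.2 ⟨k, hc⟩)
      exact ⟨⟨c, hcS⟩, rfl⟩)
    exact this
  choose g hg using hg
  have hhom : ∀ k, (g k).IsHomogeneous d := fun k => by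
    refine MvPolynomial.IsHomogeneous.of_map (f := algebraMap K1 L) (algebraMap K1 L).injective ?_
    rw [hg k]
    exact hf k
  obtain ⟨v, hv, hv0⟩ := hTL1 K K1 i hK r n d hd hr g hhom
  refine ⟨fun j => algebraMap K1 L (v j), ?_, ?_⟩
  · intro h
    apply hv
    funext j
    have := congrFun h j
    simpa using this
  · intro k
    rw [← hg k, MvPolynomial.eval_map]
    have := MvPolynomial.eval₂_comp_left (algebraMap K1 L) (RingHom.id K1) v (g k)
    rw [RingHom.comp_id] at this
    have h2 : (MvPolynomial.eval₂ (RingHom.id K1) v (g k)) = MvPolynomial.eval v (g k) := rfl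
    rw [h2, hv0 k, map_zero] at this
    exact this.symm

end

end Pool.Agent.Helper46.KZ
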